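import Mathlib
import Pool.Agent.H964.DP.Stm

/-! Task LOWP of project DP (helper964): superadditivity of the mean free energy and
identification of the limit. -/

set_option autoImplicit false

open MeasureTheory ProbabilityTheory Filter Finset

namespace Pool.Agent.H549.DP

open Pool.Agent.H964.DP

/-! ### paths -/

theorem pos_zero {N : ℕ} (σ : Fin N → Fin 4) : pos σ 0 = 0 := by
  unfold pos
  apply Finset.sum_eq_zero
  intro k hk
  rw [Finset.mem_filter] at hk
  omega

theorem pos_cons {N : ℕ} (e : Fin 4) (σ : Fin N → Fin 4) (n : ℕ) :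
    pos (Fin.cons e σ : Fin (N + 1) → Fin 4) (n + 1) = stp e + pos σ n := by
  unfold pos
  rw [Finset.sum_filter, Finset.sum_filter, Fin.sum_univ_succ]
  simp

/-- product of the weights along a path -/
noncomputable def PW (N : ℕ) (v : ℕ → V → ℝ) (x : V) (σ : Fin N → Fin 4) : ℝ :=
  ∏ i : Fin N, v i (x + pos σ (i + 1))

theorem K_path (N : ℕ) : ∀ (v : ℕ → V → ℝ) (f : V → ℝ) (x : V),
    K N v f x = ((4 : ℝ) ^ N)⁻¹ * ∑ σ : Fin N → Fin 4, PW N v x σ * f (x + pos σ N) := by
  induction N with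
  | zero =>
    intro v f x
    rw [pow_zero, inv_one, one_mul, Fintype.sum_unique]
    unfold PW
    rw [pos_zero, add_zero]
    simp [K]
  | succ N ih =>
    intro v f x
    have hr : ∀ g : (Fin (N + 1) → Fin 4) → ℝ, ((4 : ℝ) ^ (N + 1))⁻¹ * ∑ σ, g σ =
        (∑ e : Fin 4, (((4 : ℝ) ^ N)⁻¹ *
          ∑ σ : Fin N → Fin 4, g (Fin.cons e σ))) / 4 := by
      intro g
      rw [← (Fin.consEquiv (fun _ : Fin (N + 1) => Fin 4)).sum_comp, Fintype.sum_prod_type,
        ← Finset.mul_sum, pow_succ, mul_inv, div_eq_mul_inv, mul_assoc, mul_assoc,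
        mul_comm (4 : ℝ)⁻¹]
      rfl
    rw [hr]
    show (∑ e : Fin 4, v 0 (x + stp e) * K N (fun k => v (k + 1)) f (x + stp e)) / 4 = _
    congr 1
    refine Finset.sum_congr rfl fun e _ => ?_
    rw [ih, mul_left_comm, Finset.mul_sum]
    refine congrArg (fun t : ℝ => ((4 : ℝ) ^ N)⁻¹ * t) (Finset.sum_congr rfl fun σ _ => ?_)
    have h1 : PW (N + 1) v x (Fin.cons e σ) =
        v 0 (x + stp e) * PW N (fun k => v (k + 1)) (x + stp e) σ := by
      unfold PW
      rw [Fin.prod_univ_succ]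
      congr 1
      · rw [Fin.val_zero, pos_cons, pos_zero, add_zero]
      · refine Finset.prod_congr rfl fun i _ => ?_
        rw [Fin.val_succ, pos_cons, add_assoc]
    rw [h1, pos_cons, add_assoc, mul_assoc]

theorem K_add (M : ℕ) (N : ℕ) : ∀ (v : ℕ → V → ℝ) (f : V → ℝ) (x : V),
    K (N + M) v f x = K N v (fun y => K M (fun k => v (k + N)) f y) x := by
  induction N with
  | zero =>
    intro v f x
    rw [Nat.zero_add]
    rfl
  | succ N ih =>
    intro v f x
    rw [Nat.add_right_comm]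
    show avg (fun y => v 0 y * K (N + M) (fun k => v (k + 1)) f y) x =
      avg (fun y => v 0 y * K N (fun k => v (k + 1)) (fun z => K M (fun k => v (k + (N + 1))) f z) y) x
    unfold avg
    congr 1
    refine Finset.sum_congr rfl fun e _ => ?_
    beta_reduce
    rw [ih]
    rfl

theorem PW_wt_pos (β : ℝ) (N : ℕ) (w : ℕ → V → ℝ) (x : V) (σ : Fin N → Fin 4) :
    0 < PW N (wt β w) x σ := by
  unfold PW wt
  exact Finset.prod_pos fun _ _ => Real.exp_pos _

theorem PW_congr (N : ℕ) (v v' : ℕ → V → ℝ) (x : V) (σ : Fin N → Fin 4)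
    (h : ∀ k < N, v k = v' k) : PW N v x σ = PW N v' x σ := by
  unfold PW
  refine Finset.prod_congr rfl fun i _ => ?_
  rw [h i i.2]

theorem W_path (β : ℝ) (N : ℕ) (w : ℕ → V → ℝ) (x : V) :
    W β N w x = ((4 : ℝ) ^ N)⁻¹ * ∑ σ : Fin N → Fin 4, PW N (wt β w) x σ := by
  unfold W
  rw [K_path]
  simp

theorem W_pos (β : ℝ) (N : ℕ) (w : ℕ → V → ℝ) (x : V) : 0 < W β N w x := by
  rw [W_path]
  have : 0 < ∑ σ : Fin N → Fin 4, PW N (wt β w) x σ :=
    Finset.sum_pos (fun _ _ => PW_wt_pos _ _ _ _ _) Finset.univ_nonempty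
  positivity

/-- translation -/
theorem W_trans (β : ℝ) (N : ℕ) (w : ℕ → V → ℝ) (z : V) :
    W β N w z = W β N (fun n x => w n (x + z)) 0 := by
  rw [W_path, W_path]
  congr 1
  refine Finset.sum_congr rfl fun σ _ => ?_
  unfold PW wt
  refine Finset.prod_congr rfl fun n _ => ?_
  rw [zero_add, add_comm]

/-- relative weight of a path -/
noncomputable def qq (β : ℝ) (N : ℕ) (σ : Fin N → Fin 4) (w : ℕ → V → ℝ) : ℝ :=
  PW N (wt β w) 0 σ / ∑ τ : Fin N → Fin 4, PW N (wt β w) 0 τ

theorem den_pos (β : ℝ) (N : ℕ) (w : ℕ → V → ℝ) :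
    0 < ∑ τ : Fin N → Fin 4, PW N (wt β w) 0 τ :=
  Finset.sum_pos (fun _ _ => PW_wt_pos _ _ _ _ _) Finset.univ_nonempty

theorem qq_pos (β : ℝ) (N : ℕ) (σ : Fin N → Fin 4) (w : ℕ → V → ℝ) :
    0 < qq β N σ w := div_pos (PW_wt_pos _ _ _ _ _) (den_pos β N w)

theorem qq_sum (β : ℝ) (N : ℕ) (w : ℕ → V → ℝ) :
    ∑ σ : Fin N → Fin 4, qq β N σ w = 1 := by
  unfold qq
  rw [← Finset.sum_div]
  exact div_self (den_pos β N w).ne'

theorem qq_le_one (β : ℝ) (N : ℕ) (σ : Fin N → Fin 4) (w : ℕ → V → ℝ) :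
    qq β N σ w ≤ 1 := by
  rw [← qq_sum β N w]
  exact Finset.single_le_sum (f := fun σ => qq β N σ w) (fun τ _ => (qq_pos β N τ w).le)
    (Finset.mem_univ σ)

theorem PW_meas (β : ℝ) (N : ℕ) (x : V) (σ : Fin N → Fin 4) :
    Measurable (fun w : ℕ → V → ℝ => PW N (wt β w) x σ) := by
  unfold PW wt
  fun_prop

theorem qq_meas (β : ℝ) (N : ℕ) (σ : Fin N → Fin 4) : Measurable (qq β N σ) := by
  unfold qq
  exact (PW_meas β N 0 σ).div (Finset.measurable_sum _ fun τ _ => PW_meas β N 0 τ)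

theorem W_meas (β : ℝ) (N : ℕ) (x : V) : Measurable (fun w : ℕ → V → ℝ => W β N w x) := by
  have : (fun w : ℕ → V → ℝ => W β N w x) =
      fun w => ((4 : ℝ) ^ N)⁻¹ * ∑ σ : Fin N → Fin 4, PW N (wt β w) x σ := by
    funext w; exact W_path β N w x
  rw [this]
  exact (Finset.measurable_sum _ fun τ _ => PW_meas β N x τ).const_mul _

theorem LW_meas (β : ℝ) (N : ℕ) (x : V) :
    Measurable (fun w : ℕ → V → ℝ => Real.log (W β N w x)) :=
  Real.measurable_log.comp (W_meas β N x)

/-! ### gluing environments -/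

/-- the first `N` slices from `w.1`, later slices from `w.2` -/
def glue {S : Type} (N : ℕ) (w : (ℕ → S) × (ℕ → S)) : ℕ → S :=
  fun n => if n < N then w.1 n else w.2 (n - N)

theorem glue_meas {S : Type} [MeasurableSpace S] (N : ℕ) : Measurable (glue (S := S) N) := by
  refine measurable_pi_lambda _ fun n => ?_
  unfold glue
  by_cases h : n < N
  · simp only [if_pos h]
    exact (measurable_pi_apply n).comp measurable_fst
  · simp only [if_neg h]
    exact (measurable_pi_apply (n - N)).comp measurable_snd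

theorem glue_map {S : Type} [MeasurableSpace S] (μ : Measure S) [IsProbabilityMeasure μ] (N : ℕ) :
    ((Measure.infinitePi (fun _ : ℕ => μ)).prod (Measure.infinitePi (fun _ : ℕ => μ))).map (glue N) =
      Measure.infinitePi (fun _ : ℕ => μ) := by
  refine Measure.eq_infinitePi _ fun s t ht => ?_
  rw [Measure.map_apply (glue_meas N) (MeasurableSet.pi s.countable_toSet fun i _ => ht i)]
  have h1 : glue (S := S) N ⁻¹' ((s : Set ℕ).pi t) =
      (((s.filter (fun n => n < N) : Finset ℕ) : Set ℕ).pi t) ×ˢ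
        ((((s.filter (fun n => ¬ n < N)).image (fun n => n - N) : Finset ℕ) : Set ℕ).pi
          (fun n => t (n + N))) := by
    ext w
    simp only [Set.mem_preimage, Set.mem_pi, Finset.mem_coe, Set.mem_prod, Finset.mem_filter,
      Finset.mem_image, glue]
    constructor
    · intro h
      constructor
      · rintro n ⟨hn, hN⟩
        have := h n hn
        rwa [if_pos hN] at this
      · rintro k ⟨n, ⟨hn, hN⟩, rfl⟩
        have := h n hn
        rw [if_neg hN] at this
        have e : n - N + N = n := by omega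
        rwa [e]
    · rintro ⟨h1, h2⟩ n hn
      by_cases hN : n < N
      · rw [if_pos hN]; exact h1 n ⟨hn, hN⟩
      · rw [if_neg hN]
        have := h2 (n - N) ⟨n, ⟨hn, hN⟩, rfl⟩
        have e : n - N + N = n := by omega
        rwa [e] at this
  rw [h1, Measure.prod_prod, Measure.infinitePi_pi _ (fun i _ => ht i),
    Measure.infinitePi_pi _ (fun i _ => ht (i + N))]
  rw [Finset.prod_image, ← Finset.prod_filter_mul_prod_filter_not s (fun n => n < N)]
  · congr 1
    refine Finset.prod_congr rfl fun n hn => ?_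
    rw [Finset.mem_filter] at hn
    have e : n - N + N = n := by omega
    rw [e]
  · intro a ha b hb hab
    simp only [Finset.coe_filter, Set.mem_ofPred_eq] at ha hb hab
    omega

/-! ### one slice -/

theorem one_law (γ : Measure (V → ℝ)) (h : V → ℝ) (hg : GS γ h) (y : V) :
    γ.map (fun s : V → ℝ => s y) = gaussianReal 0 1 := by
  have := hg.lin {y} (fun _ => 1)
  simpa [hg.zero] using this

theorem one_exp (γ : Measure (V → ℝ)) (h : V → ℝ) (hg : GS γ h) (β : ℝ) (y : V) :
    Integrable (fun s : V → ℝ => Real.exp (β * s y - β ^ 2 / 2)) γ ∧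
      ∫ s, Real.exp (β * s y - β ^ 2 / 2) ∂γ = 1 := by
  have := hg.prob
  have hm : AEMeasurable (fun s : V → ℝ => s y) γ := (measurable_pi_apply y).aemeasurable
  have h1 : Integrable (fun s : V → ℝ => Real.exp (β * s y)) γ := by
    have h2 : Integrable (fun t : ℝ => Real.exp (β * t)) (γ.map (fun s : V → ℝ => s y)) := by
      rw [one_law γ h hg y]
      exact integrable_exp_mul_gaussianReal β
    exact (integrable_map_measure h2.aestronglyMeasurable hm).1 h2
  have h3 : ∫ s, Real.exp (β * s y) ∂γ = Real.exp (β ^ 2 / 2) := by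
    have h4 := mgf_gaussianReal (one_law γ h hg y) β
    unfold mgf at h4
    rw [h4]
    simp
  have he : (fun s : V → ℝ => Real.exp (β * s y - β ^ 2 / 2)) =
      fun s => Real.exp (β * s y) * Real.exp (-(β ^ 2 / 2)) := by
    funext s; rw [← Real.exp_add]; rfl
  rw [he]
  refine ⟨h1.mul_const _, ?_⟩
  rw [integral_mul_const, h3, ← Real.exp_add]
  simp

theorem PP_eval (γ : Measure (V → ℝ)) [IsProbabilityMeasure γ] (i : ℕ) :
    (PP γ).map (fun w => w i) = γ := by
  unfold PP
  exact (measurePreserving_eval_infinitePi (fun _ : ℕ => γ) i).map_eq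

theorem PP_abs_int (γ : Measure (V → ℝ)) (h : V → ℝ) (hg : GS γ h) (i : ℕ) (y : V) :
    Integrable (fun w : ℕ → V → ℝ => |w i y|) (PP γ) := by
  have := hg.prob
  have h0 : Integrable (fun t : ℝ => t) (gaussianReal 0 1) := by
    have := memLp_id_gaussianReal (μ := 0) (v := 1) 1
    exact memLp_one_iff_integrable.1 this
  have h1 : Integrable (fun s : V → ℝ => s y) γ := by
    have h2 : Integrable (fun t : ℝ => t) (γ.map (fun s : V → ℝ => s y)) := by
      rw [one_law γ h hg y]; exact h0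
    exact (integrable_map_measure h2.aestronglyMeasurable (measurable_pi_apply y).aemeasurable).1 h2
  have h3 : Integrable (fun w : ℕ → V → ℝ => w i y) (PP γ) := by
    have h2 : Integrable (fun s : V → ℝ => s y) ((PP γ).map (fun w => w i)) := by
      rw [PP_eval]; exact h1
    exact (integrable_map_measure h2.aestronglyMeasurable (measurable_pi_apply i).aemeasurable).1 h2
  exact h3.abs

/-! ### integrability of the logarithm -/

theorem log_bd (β : ℝ) (N : ℕ) (w : ℕ → V → ℝ) (x : V) :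
    |Real.log (W β N w x)| ≤ ∑ σ : Fin N → Fin 4, ∑ i : Fin N,
      (|β| * |w i (x + pos σ (i + 1))| + β ^ 2 / 2) := by
  set B := ∑ σ : Fin N → Fin 4, ∑ i : Fin N,
      (|β| * |w i (x + pos σ (i + 1))| + β ^ 2 / 2) with hB
  have hσ : ∀ σ : Fin N → Fin 4, ∃ t : ℝ, PW N (wt β w) x σ = Real.exp t ∧ |t| ≤ B := by
    intro σ
    refine ⟨∑ i : Fin N, (β * w i (x + pos σ (i + 1)) - β ^ 2 / 2), ?_, ?_⟩
    · unfold PW wt
      rw [Real.exp_sum]
    · have h1 : |∑ i : Fin N, (β * w i (x + pos σ (i + 1)) - β ^ 2 / 2)| ≤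
          ∑ i : Fin N, (|β| * |w i (x + pos σ (i + 1))| + β ^ 2 / 2) := by
        refine (Finset.abs_sum_le_sum_abs _ _).trans (Finset.sum_le_sum fun i _ => ?_)
        refine (abs_sub _ _).trans ?_
        rw [abs_mul, abs_of_nonneg (by positivity : (0 : ℝ) ≤ β ^ 2 / 2)]
      refine h1.trans ?_
      rw [hB]
      exact Finset.single_le_sum (f := fun σ : Fin N → Fin 4 => ∑ i : Fin N,
        (|β| * |w i (x + pos σ (i + 1))| + β ^ 2 / 2))
        (fun τ _ => Finset.sum_nonneg fun i _ => by positivity) (Finset.mem_univ σ)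
  have hc : ((4 : ℝ) ^ N)⁻¹ * (Fintype.card (Fin N → Fin 4) : ℝ) = 1 := by
    rw [Fintype.card_fun, Fintype.card_fin, Fintype.card_fin]
    push_cast
    exact inv_mul_cancel₀ (by positivity)
  have hup : W β N w x ≤ Real.exp B := by
    rw [W_path]
    have : ∑ σ : Fin N → Fin 4, PW N (wt β w) x σ ≤ (Fintype.card (Fin N → Fin 4) : ℝ) * Real.exp B := by
      rw [← Finset.card_univ, ← nsmul_eq_mul]
      refine Finset.sum_le_card_nsmul _ _ _ fun σ _ => ?_
      obtain ⟨t, h1, h2⟩ := hσ σ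
      rw [h1]
      exact Real.exp_le_exp.2 (le_trans (le_abs_self t) h2)
    calc ((4 : ℝ) ^ N)⁻¹ * ∑ σ : Fin N → Fin 4, PW N (wt β w) x σ ≤
        ((4 : ℝ) ^ N)⁻¹ * ((Fintype.card (Fin N → Fin 4) : ℝ) * Real.exp B) :=
          mul_le_mul_of_nonneg_left this (by positivity)
      _ = Real.exp B := by rw [← mul_assoc, hc, one_mul]
  have hlo : Real.exp (-B) ≤ W β N w x := by
    rw [W_path]
    have : (Fintype.card (Fin N → Fin 4) : ℝ) * Real.exp (-B) ≤ ∑ σ : Fin N → Fin 4, PW N (wt β w) x σ := by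
      rw [← Finset.card_univ, ← nsmul_eq_mul]
      refine Finset.card_nsmul_le_sum _ _ _ fun σ _ => ?_
      obtain ⟨t, h1, h2⟩ := hσ σ
      rw [h1]
      exact Real.exp_le_exp.2 (by linarith [neg_abs_le t])
    calc Real.exp (-B) = ((4 : ℝ) ^ N)⁻¹ * ((Fintype.card (Fin N → Fin 4) : ℝ) * Real.exp (-B)) := by
          rw [← mul_assoc, hc, one_mul]
      _ ≤ ((4 : ℝ) ^ N)⁻¹ * ∑ σ : Fin N → Fin 4, PW N (wt β w) x σ :=
          mul_le_mul_of_nonneg_left this (by positivity)
  rw [abs_le]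
  constructor
  · rw [Real.le_log_iff_exp_le (W_pos β N w x)]
    exact hlo
  · rw [Real.log_le_iff_le_exp (W_pos β N w x)]
    exact hup

theorem LW_int (γ : Measure (V → ℝ)) (h : V → ℝ) (hg : GS γ h) (β : ℝ) (N : ℕ) (x : V) :
    Integrable (fun w : ℕ → V → ℝ => Real.log (W β N w x)) (PP γ) := by
  have := hg.prob
  have : IsProbabilityMeasure (PP γ) := by unfold PP; infer_instance
  have hB : Integrable (fun w : ℕ → V → ℝ => ∑ σ : Fin N → Fin 4, ∑ i : Fin N,
      (|β| * |w i (x + pos σ (i + 1))| + β ^ 2 / 2)) (PP γ) := by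
    refine integrable_finsetSum _ fun σ _ => integrable_finsetSum _ fun i _ => ?_
    exact ((PP_abs_int γ h hg i _).const_mul |β|).add (integrable_const _)
  refine hB.mono' (LW_meas β N x).aestronglyMeasurable (Filter.Eventually.of_forall fun w => ?_)
  rw [Real.norm_eq_abs]
  exact log_bd β N w x

/-! ### the mean of the partition function -/

theorem W_int (γ : Measure (V → ℝ)) (h : V → ℝ) (hg : GS γ h) (β : ℝ) (N : ℕ) : ∀ x : V,
    Integrable (fun w : ℕ → V → ℝ => W β N w x) (PP γ) ∧ ∫ w, W β N w x ∂(PP γ) = 1 := by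
  have := hg.prob
  have : IsProbabilityMeasure (PP γ) := by unfold PP; infer_instance
  induction N with
  | zero =>
    intro x
    have : (fun w : ℕ → V → ℝ => W β 0 w x) = fun _ => 1 := rfl
    rw [this]
    exact ⟨integrable_const _, by simp⟩
  | succ N ih =>
    intro x
    have hmp : MeasurePreserving (glue 1) ((PP γ).prod (PP γ)) (PP γ) :=
      ⟨glue_meas 1, glue_map γ 1⟩
    -- one step
    have hG : ∀ w : (ℕ → V → ℝ) × (ℕ → V → ℝ), W β (N + 1) (glue 1 w) x =
        (∑ e : Fin 4, Real.exp (β * w.1 0 (x + stp e) - β ^ 2 / 2) * W β N w.2 (x + stp e)) / 4 := by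
      intro w
      show (∑ e : Fin 4, wt β (glue 1 w) 0 (x + stp e) *
        K N (fun k => wt β (glue 1 w) (k + 1)) (fun _ => 1) (x + stp e)) / 4 = _
      rfl
    have h0 : ∀ y : V, Integrable (fun w : ℕ → V → ℝ => Real.exp (β * w 0 y - β ^ 2 / 2)) (PP γ) ∧
        ∫ w, Real.exp (β * w 0 y - β ^ 2 / 2) ∂(PP γ) = 1 := by
      intro y
      have hm : AEMeasurable (fun w : ℕ → V → ℝ => w 0) (PP γ) := (measurable_pi_apply 0).aemeasurable
      obtain ⟨h1, h2⟩ := one_exp γ h hg β y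
      have h1' := h1
      rw [← PP_eval γ 0] at h1 h2
      refine ⟨(integrable_map_measure h1.aestronglyMeasurable hm).1 h1, ?_⟩
      rw [← h2, integral_map hm h1.aestronglyMeasurable]
    have hI : ∀ e : Fin 4, Integrable (fun w : (ℕ → V → ℝ) × (ℕ → V → ℝ) =>
        Real.exp (β * w.1 0 (x + stp e) - β ^ 2 / 2) * W β N w.2 (x + stp e)) ((PP γ).prod (PP γ)) :=
      fun e => (h0 (x + stp e)).1.mul_prod (ih (x + stp e)).1
    have hE : ∀ e : Fin 4, ∫ w : (ℕ → V → ℝ) × (ℕ → V → ℝ),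
        Real.exp (β * w.1 0 (x + stp e) - β ^ 2 / 2) * W β N w.2 (x + stp e) ∂((PP γ).prod (PP γ)) = 1 := by
      intro e
      rw [integral_prod_mul (μ := PP γ) (ν := PP γ)
        (fun w => Real.exp (β * w 0 (x + stp e) - β ^ 2 / 2)) (fun w => W β N w (x + stp e)),
        (h0 (x + stp e)).2, (ih (x + stp e)).2, one_mul]
    have hI2 : Integrable (fun w => W β (N + 1) (glue 1 w) x) ((PP γ).prod (PP γ)) := by
      have : (fun w : (ℕ → V → ℝ) × (ℕ → V → ℝ) => W β (N + 1) (glue 1 w) x) = fun w =>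
          (∑ e : Fin 4, Real.exp (β * w.1 0 (x + stp e) - β ^ 2 / 2) * W β N w.2 (x + stp e)) / 4 := by
        funext w; exact hG w
      rw [this]
      exact (integrable_finsetSum _ fun e _ => hI e).div_const _
    have hE2 : ∫ w, W β (N + 1) (glue 1 w) x ∂((PP γ).prod (PP γ)) = 1 := by
      rw [integral_congr_ae (Filter.Eventually.of_forall hG), integral_div,
        integral_finsetSum _ (fun e _ => hI e), Finset.sum_congr rfl (fun e _ => hE e)]
      simp
    have hI3 : Integrable (fun w : ℕ → V → ℝ => W β (N + 1) w x) (PP γ) := by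
      have h1 := integrable_map_measure (μ := (PP γ).prod (PP γ)) (f := glue (S := V → ℝ) 1)
        (g := fun w : ℕ → V → ℝ => W β (N + 1) w x) (W_meas β (N + 1) x).aestronglyMeasurable
        (glue_meas 1).aemeasurable
      rw [hmp.map_eq] at h1
      exact h1.2 hI2
    refine ⟨hI3, ?_⟩
    have h2 := integral_map (μ := (PP γ).prod (PP γ)) (glue_meas (S := V → ℝ) 1).aemeasurable
      (f := fun w : ℕ → V → ℝ => W β (N + 1) w x) (W_meas β (N + 1) x).aestronglyMeasurable
    rw [hmp.map_eq] at h2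
    rw [h2]
    exact hE2

/-! ### superadditivity -/

theorem superadd (hT : S_TRANS) (γ : Measure (V → ℝ)) (h : V → ℝ) (hg : GS γ h) (β : ℝ) (N M : ℕ) :
    ∫ w, Real.log (W β N w 0) ∂(PP γ) + ∫ w, Real.log (W β M w 0) ∂(PP γ) ≤
      ∫ w, Real.log (W β (N + M) w 0) ∂(PP γ) := by
  have := hg.prob
  have : IsProbabilityMeasure (PP γ) := by unfold PP; infer_instance
  have hL : ∀ K, Integrable (fun w => Real.log (W β K w 0)) (PP γ) := fun K => LW_int γ h hg β K 0
  have hmp : MeasurePreserving (glue N) ((PP γ).prod (PP γ)) (PP γ) :=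
    ⟨glue_meas N, glue_map γ N⟩
  have hsm : ∀ z : V, Measurable
      (fun (w : ℕ → V → ℝ) (n : ℕ) (x : V) => w n (x + z)) := by
    intro z; fun_prop
  have hshift : ∀ z : V, (PP γ).map (fun w n x => w n (x + z)) = PP γ := fun z =>
    (hT.2 γ h hg z).2
  have hze : ∀ z : V, ∫ w, Real.log (W β M w z) ∂(PP γ) = ∫ w, Real.log (W β M w 0) ∂(PP γ) := by
    intro z
    have h1 : ∫ w, Real.log (W β M w z) ∂(PP γ) =
        ∫ w : ℕ → V → ℝ, Real.log (W β M (fun n x => w n (x + z)) 0) ∂(PP γ) := integral_congr_ae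
      (Filter.Eventually.of_forall fun w => by
        show Real.log (W β M w z) = Real.log (W β M (fun n x => w n (x + z)) 0)
        rw [W_trans])
    rw [h1]
    have h2 := integral_map (μ := PP γ) (hsm z).aemeasurable
      (f := fun w : ℕ → V → ℝ => Real.log (W β M w 0)) (by rw [hshift z]; exact (hL M).aestronglyMeasurable)
    rw [hshift z] at h2
    exact h2.symm
  have key : ∀ w : (ℕ → V → ℝ) × (ℕ → V → ℝ),
      Real.log (W β N w.1 0) + ∑ σ : Fin N → Fin 4, qq β N σ w.1 * Real.log (W β M w.2 (pos σ N)) ≤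
        Real.log (W β (N + M) (glue N w) 0) := by
    rintro ⟨w₁, w₂⟩
    simp only
    set D := ∑ τ : Fin N → Fin 4, PW N (wt β w₁) 0 τ with hD
    have hDpos : 0 < D := den_pos β N w₁
    have hSS : ∀ σ : Fin N → Fin 4, PW N (wt β (glue N (w₁, w₂))) 0 σ = PW N (wt β w₁) 0 σ := by
      intro σ
      refine PW_congr N _ _ 0 σ fun k hk => ?_
      funext x
      unfold wt glue
      rw [if_pos hk]
    have hWM : ∀ z : V, K M (fun n => wt β (glue N (w₁, w₂)) (n + N)) (fun _ => 1) z = W β M w₂ z := by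
      intro z
      unfold W
      have : (fun n => wt β (glue N (w₁, w₂)) (n + N)) = wt β w₂ := by
        funext n x
        unfold wt glue
        rw [if_neg (by omega), Nat.add_sub_cancel]
      rw [this]
    have e1 : W β (N + M) (glue N (w₁, w₂)) 0 = ((4 : ℝ) ^ N)⁻¹ * (D *
        ∑ σ : Fin N → Fin 4, qq β N σ w₁ * W β M w₂ (pos σ N)) := by
      unfold W
      rw [K_add, K_path, Finset.mul_sum _ _ D]
      refine congrArg (fun t : ℝ => ((4 : ℝ) ^ N)⁻¹ * t) (Finset.sum_congr rfl fun σ _ => ?_)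
      rw [hSS, hWM, zero_add]
      unfold qq W
      rw [← hD, ← mul_assoc, mul_div_cancel₀ _ hDpos.ne']
    have e2 : W β N w₁ 0 = ((4 : ℝ) ^ N)⁻¹ * D := by
      rw [W_path]
    have hWpos : ∀ σ : Fin N → Fin 4, 0 < W β M w₂ (pos σ N) := fun σ => W_pos _ _ _ _
    have hsum : 0 < ∑ σ : Fin N → Fin 4, qq β N σ w₁ * W β M w₂ (pos σ N) :=
      Finset.sum_pos (fun σ _ => mul_pos (qq_pos β N σ w₁) (hWpos σ)) Finset.univ_nonempty
    have hJ : ∑ σ : Fin N → Fin 4, qq β N σ w₁ * Real.log (W β M w₂ (pos σ N)) ≤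
        Real.log (∑ σ : Fin N → Fin 4, qq β N σ w₁ * W β M w₂ (pos σ N)) := by
      have := strictConcaveOn_log_Ioi.concaveOn.le_map_sum (t := Finset.univ)
        (w := fun σ => qq β N σ w₁) (p := fun σ => W β M w₂ (pos σ N))
        (fun σ _ => (qq_pos β N σ w₁).le) (qq_sum β N w₁) (fun σ _ => hWpos σ)
      simpa only [smul_eq_mul] using this
    rw [e1, e2, ← mul_assoc, Real.log_mul (by positivity) hsum.ne']
    linarith
  have hqi : ∀ σ : Fin N → Fin 4, Integrable (qq β N σ) (PP γ) := by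
    intro σ
    refine Integrable.mono' (integrable_const (1 : ℝ)) (qq_meas β N σ).aestronglyMeasurable
      (Filter.Eventually.of_forall fun w => ?_)
    rw [Real.norm_eq_abs, abs_of_pos (qq_pos β N σ w)]
    exact qq_le_one β N σ w
  have hI1 : Integrable (fun w : (ℕ → V → ℝ) × (ℕ → V → ℝ) => Real.log (W β N w.1 0))
      ((PP γ).prod (PP γ)) := (hL N).comp_fst (PP γ)
  have hI2 : ∀ σ : Fin N → Fin 4, Integrable
      (fun w : (ℕ → V → ℝ) × (ℕ → V → ℝ) =>
        qq β N σ w.1 * Real.log (W β M w.2 (pos σ N))) ((PP γ).prod (PP γ)) :=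
    fun σ => (hqi σ).mul_prod (LW_int γ h hg β M (pos σ N))
  have hI3 : Integrable (fun w : (ℕ → V → ℝ) × (ℕ → V → ℝ) =>
      ∑ σ : Fin N → Fin 4, qq β N σ w.1 * Real.log (W β M w.2 (pos σ N)))
      ((PP γ).prod (PP γ)) := integrable_finsetSum _ fun σ _ => hI2 σ
  have hI4 : Integrable (fun w => Real.log (W β (N + M) (glue N w) 0)) ((PP γ).prod (PP γ)) :=
    hmp.integrable_comp_of_integrable (hL (N + M))
  have hmono := integral_mono (hI1.add hI3) hI4 key
  have hR : ∫ w, Real.log (W β (N + M) (glue N w) 0) ∂((PP γ).prod (PP γ)) =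
      ∫ w, Real.log (W β (N + M) w 0) ∂(PP γ) := by
    have h2 := integral_map (μ := (PP γ).prod (PP γ)) (glue_meas N).aemeasurable
      (f := fun w : ℕ → V → ℝ => Real.log (W β (N + M) w 0))
      (by rw [hmp.map_eq]; exact (hL (N + M)).aestronglyMeasurable)
    rw [hmp.map_eq] at h2
    exact h2.symm
  have hLs : ∫ w, (Real.log (W β N w.1 0) + ∑ σ : Fin N → Fin 4,
      qq β N σ w.1 * Real.log (W β M w.2 (pos σ N))) ∂((PP γ).prod (PP γ)) =
      ∫ w, Real.log (W β N w 0) ∂(PP γ) + ∫ w, Real.log (W β M w 0) ∂(PP γ) := by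
    rw [integral_add hI1 hI3, integral_finsetSum _ (fun σ _ => hI2 σ)]
    congr 1
    · have := integral_fun_fst (μ := PP γ) (ν := PP γ) (fun w => Real.log (W β N w 0))
      simpa using this
    · have h5 : ∀ σ : Fin N → Fin 4,
          ∫ w : (ℕ → V → ℝ) × (ℕ → V → ℝ),
            qq β N σ w.1 * Real.log (W β M w.2 (pos σ N)) ∂((PP γ).prod (PP γ)) =
          (∫ w, qq β N σ w ∂(PP γ)) * ∫ w, Real.log (W β M w 0) ∂(PP γ) := by
        intro σ
        rw [integral_prod_mul (μ := PP γ) (ν := PP γ) (qq β N σ)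
          (fun w => Real.log (W β M w (pos σ N))), hze]
      rw [Finset.sum_congr rfl (fun σ _ => h5 σ), ← Finset.sum_mul,
        ← integral_finsetSum _ (fun σ _ => hqi σ)]
      simp only [qq_sum]
      simp
  rw [hR] at hmono
  rw [← hLs]
  exact hmono

theorem superadd_mul (hT : S_TRANS) (γ : Measure (V → ℝ)) (h : V → ℝ) (hg : GS γ h) (β : ℝ) (N k : ℕ) :
    k * ∫ w, Real.log (W β N w 0) ∂(PP γ) ≤ ∫ w, Real.log (W β (k * N) w 0) ∂(PP γ) := by
  induction k with
  | zero =>
    have : (fun w : ℕ → V → ℝ => Real.log (W β (0 * N) w 0)) = fun _ => 0 := by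
      funext w
      rw [Nat.zero_mul]
      show Real.log 1 = 0
      exact Real.log_one
    rw [this]
    simp
  | succ k ih =>
    have := superadd hT γ h hg β (k * N) N
    rw [Nat.succ_mul]
    push_cast
    linarith

/-! ### the limit -/

theorem t_LOWP : S_TRANS → S_LOWP := by
  intro hT γ h hg β p hp N
  have := hg.prob
  have : IsProbabilityMeasure (PP γ) := by unfold PP; infer_instance
  set a : ℕ → ℝ := fun n => ∫ w, Real.log (W β n w 0) ∂(PP γ) with ha
  have hsub : ∀ k : ℕ, k * a N ≤ a (k * N) := fun k => superadd_mul hT γ h hg β N k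
  show a N ≤ N * p
  rcases Nat.eq_zero_or_pos N with hN | hN
  · subst hN
    have : a 0 = 0 := by
      show ∫ w, Real.log (W β 0 w 0) ∂(PP γ) = 0
      have : (fun w : ℕ → V → ℝ => Real.log (W β 0 w 0)) = fun _ => 0 := by
        funext w
        show Real.log 1 = 0
        exact Real.log_one
      rw [this]
      simp
    rw [this]
    simp
  have hNr : (0 : ℝ) < N := by exact_mod_cast hN
  -- the nonnegative functions
  set Y : ℕ → (ℕ → V → ℝ) → ℝ := fun k w =>
    (W β ((k + 1) * N) w 0 - 1 - Real.log (W β ((k + 1) * N) w 0)) / (((k + 1) * N : ℕ) : ℝ) with hY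
  have hYn : ∀ k w, 0 ≤ Y k w := by
    intro k w
    have := Real.log_le_sub_one_of_pos (W_pos β ((k + 1) * N) w 0)
    apply div_nonneg
    · linarith
    · positivity
  have hYm : ∀ k, Measurable (Y k) := by
    intro k
    exact (((W_meas β ((k + 1) * N) 0).sub_const 1).sub (LW_meas β ((k + 1) * N) 0)).div_const _
  have hYi : ∀ k, Integrable (Y k) (PP γ) := by
    intro k
    exact (((W_int γ h hg β ((k + 1) * N) 0).1.sub (integrable_const 1)).sub
      (LW_int γ h hg β ((k + 1) * N) 0)).div_const _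
  have hYe : ∀ k, ∫ w, Y k w ∂(PP γ) = -(a ((k + 1) * N)) / (((k + 1) * N : ℕ) : ℝ) := by
    intro k
    show ∫ w, (W β ((k + 1) * N) w 0 - 1 - Real.log (W β ((k + 1) * N) w 0)) /
      (((k + 1) * N : ℕ) : ℝ) ∂(PP γ) = _
    have e1 : ∫ w, (W β ((k + 1) * N) w 0 - 1 - Real.log (W β ((k + 1) * N) w 0)) ∂(PP γ) =
        ∫ w, (W β ((k + 1) * N) w 0 - 1) ∂(PP γ) - ∫ w, Real.log (W β ((k + 1) * N) w 0) ∂(PP γ) :=
      integral_sub ((W_int γ h hg β ((k + 1) * N) 0).1.sub (integrable_const 1))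
        (LW_int γ h hg β ((k + 1) * N) 0)
    have e2 : ∫ w, (W β ((k + 1) * N) w 0 - 1) ∂(PP γ) =
        ∫ w, W β ((k + 1) * N) w 0 ∂(PP γ) - ∫ _ : ℕ → V → ℝ, (1 : ℝ) ∂(PP γ) :=
      integral_sub (W_int γ h hg β ((k + 1) * N) 0).1 (integrable_const 1)
    rw [integral_div, e1, e2, (W_int γ h hg β ((k + 1) * N) 0).2]
    simp [ha]
  have hYb : ∀ k, ∫ w, Y k w ∂(PP γ) ≤ -(a N) / N := by
    intro k
    rw [hYe]
    have hk : (0 : ℝ) < ((k : ℝ) + 1) * N := by positivity
    push_cast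
    rw [div_le_div_iff₀ hk hNr]
    have := hsub (k + 1)
    push_cast at this
    nlinarith
  have hFat : ∫⁻ w, Filter.liminf (fun k => ENNReal.ofReal (Y k w)) atTop ∂(PP γ) ≤
      Filter.liminf (fun k => ∫⁻ w, ENNReal.ofReal (Y k w) ∂(PP γ)) atTop :=
    lintegral_liminf_le (μ := PP γ) (f := fun k w => ENNReal.ofReal (Y k w))
      (fun k => (hYm k).ennreal_ofReal)
  have hle : Filter.liminf (fun k => ∫⁻ w, ENNReal.ofReal (Y k w) ∂(PP γ)) atTop ≤
      ENNReal.ofReal (-(a N) / N) := by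
    refine (Filter.liminf_le_liminf (v := fun _ : ℕ => ENNReal.ofReal (-(a N) / N)) ?_).trans ?_
    · refine Filter.Eventually.of_forall fun k => ?_
      show ∫⁻ w, ENNReal.ofReal (Y k w) ∂(PP γ) ≤ _
      rw [← ofReal_integral_eq_lintegral_ofReal (hYi k) (Filter.Eventually.of_forall (hYn k))]
      exact ENNReal.ofReal_le_ofReal (hYb k)
    · simp
  have hge : ENNReal.ofReal (-p) ≤ ∫⁻ w, Filter.liminf (fun k => ENNReal.ofReal (Y k w)) atTop ∂(PP γ) := by
    have h1 : ∫⁻ _ : ℕ → V → ℝ, ENNReal.ofReal (-p) ∂(PP γ) = ENNReal.ofReal (-p) := by simp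
    rw [← h1]
    refine lintegral_mono_ae ?_
    filter_upwards [hp] with w hw
    have hs : Tendsto (fun k : ℕ => (k + 1) * N) atTop atTop := by
      refine Filter.tendsto_atTop_mono (fun k => ?_) (Filter.tendsto_id)
      show k ≤ (k + 1) * N
      nlinarith
    have h2 : Tendsto (fun k : ℕ => Real.log (W β ((k + 1) * N) w 0) / (((k + 1) * N : ℕ) : ℝ)) atTop
        (nhds p) := hw.comp hs
    have h3 : Tendsto (fun k : ℕ => (1 : ℝ) / (((k + 1) * N : ℕ) : ℝ)) atTop (nhds 0) :=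
      (tendsto_const_nhds.div_atTop (tendsto_natCast_atTop_atTop.comp hs))
    have h4 : Tendsto (fun k : ℕ => -(1 / (((k + 1) * N : ℕ) : ℝ)) -
        Real.log (W β ((k + 1) * N) w 0) / (((k + 1) * N : ℕ) : ℝ)) atTop (nhds (-p)) := by
      have := h3.neg.sub h2
      simpa using this
    have h5 : Tendsto (fun k : ℕ => ENNReal.ofReal (-(1 / (((k + 1) * N : ℕ) : ℝ)) -
        Real.log (W β ((k + 1) * N) w 0) / (((k + 1) * N : ℕ) : ℝ))) atTop (nhds (ENNReal.ofReal (-p))) :=
      ENNReal.tendsto_ofReal h4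
    rw [← h5.liminf_eq]
    refine Filter.liminf_le_liminf (Filter.Eventually.of_forall fun k => ?_)
    apply ENNReal.ofReal_le_ofReal
    have hk : (0 : ℝ) < (((k + 1) * N : ℕ) : ℝ) := by positivity
    have h6 := (W_pos β ((k + 1) * N) w 0).le
    show _ ≤ (W β ((k + 1) * N) w 0 - 1 - Real.log (W β ((k + 1) * N) w 0)) / (((k + 1) * N : ℕ) : ℝ)
    rw [sub_div, sub_div]
    have : 0 ≤ W β ((k + 1) * N) w 0 / (((k + 1) * N : ℕ) : ℝ) := div_nonneg h6 hk.le
    linarith
  have hfin : ENNReal.ofReal (-p) ≤ ENNReal.ofReal (-(a N) / N) := hge.trans (hFat.trans hle)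
  have haN : 0 ≤ -(a N) / N := le_trans (integral_nonneg (hYn 0)) (hYb 0)
  have h7 : -p ≤ -(a N) / N := by
    exact (ENNReal.ofReal_le_ofReal_iff haN).1 hfin
  rw [le_div_iff₀ hNr] at h7
  linarith

end Pool.Agent.H549.DP
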